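import Pool.Agent.H560.E2.Stm

/-!
# Typical polynomials in a residue class modulo a prime of large degree (task TYP of helper560)
-/

set_option autoImplicit false

open scoped Classical
open Finset Polynomial

namespace Pool.Agent.H571.E2

open Pool.Agent.H985.Par (GoodV)
open Pool.Agent.H694.Typ
open Pool.Agent.H560.E2 (S_typP)

section base
variable {k : Type} [Field k]

/-- reduction modulo `p` has smaller degree -/
theorem deg_mod_lt {p : k[X]} (hp : p.Monic) (r : k[X]) : (r %ₘ p).degree < p.degree :=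
  degree_modByMonic_lt r hp

variable [Fintype k]

/-- the monic polynomials in a residue class -/
theorem card_class {n : ℕ} {p : k[X]} (hp : p.Monic) (hn : p.natDegree ≤ n) (r : k[X]) :
    ((Mn k n).filter (fun u => p ∣ u - r)).card = Fintype.card k ^ (n - p.natDegree) := by
  rw [← card_Mn]
  symm
  have hdeg : ∀ v : k[X], v.Monic → (r %ₘ p).degree < (p * v).degree := by
    intro v hv
    refine lt_of_lt_of_le (deg_mod_lt hp r) ?_
    rw [degree_mul]
    have h0 : (0 : WithBot ℕ) ≤ v.degree := zero_le_degree_iff.2 hv.ne_zero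
    calc p.degree = p.degree + 0 := (add_zero _).symm
      _ ≤ p.degree + v.degree := add_le_add_right h0 _
  refine Finset.card_bij (fun v _ => p * v + r %ₘ p) ?_ ?_ ?_
  · intro v hv
    rw [mem_Mn] at hv
    rw [Finset.mem_filter, mem_Mn]
    refine ⟨⟨(hp.mul hv.1).add_of_left (hdeg v hv.1), ?_⟩, ?_⟩
    · rw [natDegree_add_eq_left_of_degree_lt (hdeg v hv.1), hp.natDegree_mul hv.1, hv.2]
      omega
    · have h1 : p * v + r %ₘ p - r = p * (v - r /ₘ p) := by
        have := modByMonic_add_div r p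
        linear_combination this
      rw [h1]
      exact dvd_mul_right _ _
  · intro v _ v' _ h
    exact mul_left_cancel₀ hp.ne_zero (add_right_cancel h)
  · intro u hu
    rw [Finset.mem_filter, mem_Mn] at hu
    obtain ⟨⟨hu1, hu2⟩, w, hw⟩ := hu
    have hv : u = p * (w + r /ₘ p) + r %ₘ p := by
      have := modByMonic_add_div r p
      linear_combination hw - this
    have hdu : (r %ₘ p).degree < u.degree := by
      refine lt_of_lt_of_le (deg_mod_lt hp r) ?_
      rw [degree_eq_natDegree hp.ne_zero, degree_eq_natDegree hu1.ne_zero, hu2]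
      exact_mod_cast hn
    have hpv : p * (w + r /ₘ p) = u - r %ₘ p := by
      rw [hv]; ring
    have hm : (p * (w + r /ₘ p)).Monic := by
      rw [hpv]
      exact hu1.sub_of_left hdu
    have hvm : (w + r /ₘ p).Monic := hp.of_mul_monic_left hm
    refine ⟨w + r /ₘ p, ?_, hv.symm⟩
    rw [mem_Mn]
    refine ⟨hvm, ?_⟩
    have h2 : (p * (w + r /ₘ p)).natDegree = n := by
      rw [hpv]
      by_cases h0 : r %ₘ p = 0
      · rw [h0, sub_zero, hu2]
      · rw [natDegree_sub_eq_left_of_natDegree_lt (natDegree_lt_natDegree h0 hdu), hu2]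
    rw [hp.natDegree_mul hvm] at h2
    omega

/-- the polynomials of the residue class `c` modulo `p` -/
noncomputable def Bs (p c : k[X]) (d : ℕ) : Finset k[X] := (Mn k d).filter (fun b => p ∣ b - c)

theorem mem_Bs {p c b : k[X]} {d : ℕ} : b ∈ Bs p c d ↔ (b.Monic ∧ b.natDegree = d) ∧ p ∣ b - c := by
  unfold Bs
  rw [mem_filter, mem_Mn]

/-- multiples of `A` in the class -/
theorem card_cop {d : ℕ} {p c A : k[X]} (hp : p.Monic) (hA : A.Monic) (hc : IsCoprime A p)
    (hd : A.natDegree + p.natDegree ≤ d) :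
    ((Bs p c d).filter (fun b => A ∣ b)).card = Fintype.card k ^ (d - p.natDegree - A.natDegree) := by
  obtain ⟨A', p', hAp⟩ := hc
  have h0 := card_class (n := d - A.natDegree) hp (by omega) (A' * c)
  rw [show d - p.natDegree - A.natDegree = d - A.natDegree - p.natDegree by omega, ← h0]
  symm
  have key : ∀ u : k[X], p ∣ A * u - c ↔ p ∣ u - A' * c := by
    intro u
    constructor
    · rintro ⟨w, hw⟩
      refine ⟨A' * w + p' * u, ?_⟩
      linear_combination A' * hw - u * hAp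
    · rintro ⟨w, hw⟩
      refine ⟨A * w - p' * c, ?_⟩
      linear_combination A * hw + c * hAp
  refine Finset.card_bij (fun u _ => A * u) ?_ ?_ ?_
  · intro u hu
    rw [Finset.mem_filter, mem_Mn] at hu
    rw [Finset.mem_filter, mem_Bs]
    refine ⟨⟨⟨hA.mul hu.1.1, ?_⟩, (key u).2 hu.2⟩, dvd_mul_right _ _⟩
    rw [hA.natDegree_mul hu.1.1, hu.1.2]
    omega
  · intro u _ u' _ h
    exact mul_left_cancel₀ hA.ne_zero h
  · intro b hb
    rw [Finset.mem_filter, mem_Bs] at hb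
    obtain ⟨⟨⟨hb1, hb2⟩, hb3⟩, u, rfl⟩ := hb
    have hu : u.Monic := hA.of_mul_monic_left hb1
    refine ⟨u, ?_, rfl⟩
    rw [Finset.mem_filter, mem_Mn]
    refine ⟨⟨hu, ?_⟩, (key u).1 hb3⟩
    rw [hA.natDegree_mul hu] at hb2
    omega

theorem card_le_one' {d : ℕ} {p c A : k[X]} (hp : p.Monic) (hA : A.Monic) (hc : IsCoprime A p)
    (hd : d < A.natDegree + p.natDegree) :
    ((Bs p c d).filter (fun b => A ∣ b)).card ≤ 1 := by
  rw [Finset.card_le_one]
  intro b hb b' hb'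
  rw [Finset.mem_filter, mem_Bs] at hb hb'
  obtain ⟨⟨⟨hb1, hb2⟩, hb3⟩, u, rfl⟩ := hb
  obtain ⟨⟨⟨hb1', hb2'⟩, hb3'⟩, u', rfl⟩ := hb'
  have hu : u.Monic := hA.of_mul_monic_left hb1
  have hu' : u'.Monic := hA.of_mul_monic_left hb1'
  rw [hA.natDegree_mul hu] at hb2
  rw [hA.natDegree_mul hu'] at hb2'
  have h1 : p ∣ A * (u - u') := by
    have := dvd_sub hb3 hb3'
    rwa [show A * u - c - (A * u' - c) = A * (u - u') by ring] at this
  have h2 : p ∣ u - u' := hc.symm.dvd_of_dvd_mul_left h1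
  have h3 : u - u' = 0 := by
    by_contra hne
    have h4 := degree_le_of_dvd h2 hne
    have h5 : (u - u').degree < u.degree := by
      refine degree_sub_lt_left ?_ hu.ne_zero ?_
      · rw [degree_eq_natDegree hu.ne_zero, degree_eq_natDegree hu'.ne_zero]
        congr 1
        omega
      · rw [hu.leadingCoeff, hu'.leadingCoeff]
    have h6 := lt_of_le_of_lt h4 h5
    rw [degree_eq_natDegree hp.ne_zero, degree_eq_natDegree hu.ne_zero] at h6
    have h7 : p.natDegree < u.natDegree := by exact_mod_cast h6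
    omega
  rw [sub_eq_zero.1 h3]

theorem card_zero {d : ℕ} {p c A : k[X]} (hpc : ¬ p ∣ c) (hpA : p ∣ A) :
    ((Bs p c d).filter (fun b => A ∣ b)).card = 0 := by
  rw [Finset.card_eq_zero, Finset.filter_eq_empty_iff]
  intro b hb hAb
  rw [mem_Bs] at hb
  apply hpc
  have := dvd_sub (hpA.trans hAb) hb.2
  rwa [show b - (b - c) = c by ring] at this

/-- upper bound for the number of multiples of `A` -/
theorem card_up {d : ℕ} {p c A : k[X]} (hp : p.Monic) (hi : Irreducible p) (hpc : ¬ p ∣ c)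
    (hA : A.Monic) (hd : A.natDegree + p.natDegree ≤ d) :
    (((Bs p c d).filter (fun b => A ∣ b)).card : ℝ) ≤
      (Fintype.card k : ℝ) ^ (d - p.natDegree) * wt k A.natDegree := by
  have hq := q_ge (k := k)
  by_cases hpA : p ∣ A
  · rw [card_zero hpc hpA]
    have := wt_nonneg (k := k) A.natDegree
    simp only [Nat.cast_zero]
    positivity
  · have hc : IsCoprime A p := ((hi.coprime_iff_not_dvd).2 hpA).symm
    rw [card_cop hp hA hc hd, wt, Nat.cast_pow, pow_sub₀ _ (by positivity) (by omega)]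

theorem card_up_one {d : ℕ} {p c A : k[X]} (hp : p.Monic) (hi : Irreducible p) (hpc : ¬ p ∣ c)
    (hA : A.Monic) (hd : d < A.natDegree + p.natDegree) :
    (((Bs p c d).filter (fun b => A ∣ b)).card : ℝ) ≤ 1 := by
  by_cases hpA : p ∣ A
  · rw [card_zero hpc hpA]
    norm_num
  · have hc : IsCoprime A p := ((hi.coprime_iff_not_dvd).2 hpA).symm
    exact_mod_cast card_le_one' hp hA hc hd

/-! ### square divisors -/

theorem geo_sum_le (q : ℝ) (hq : 2 ≤ q) (n : ℕ) : ∑ j ∈ Finset.range (n + 1), q ^ j ≤ 2 * q ^ n := by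
  induction n with
  | zero => simp
  | succ n ih =>
    rw [sum_range_succ, pow_succ]
    have h0 : 0 < q ^ n := by positivity
    nlinarith

theorem sq_boundP {p c : k[X]} {d c0 : ℕ} (hp : p.Monic) (hi : Irreducible p) (hpc : ¬ p ∣ c) :
    (((Bs p c d).filter (fun b => ∃ g : k[X], g.Monic ∧ c0 < g.natDegree ∧ g ^ 2 ∣ b)).card : ℝ) ≤
      (Fintype.card k : ℝ) ^ (d - p.natDegree) * (1 / 2) ^ c0 +
        2 * (Fintype.card k : ℝ) ^ (d / 2) := by
  have hq := q_ge (k := k)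
  have hsub : (Bs p c d).filter (fun b => ∃ g : k[X], g.Monic ∧ c0 < g.natDegree ∧ g ^ 2 ∣ b) ⊆
      (Finset.Icc (c0 + 1) (d / 2)).biUnion (fun j => (Mn k j).biUnion
        (fun g => (Bs p c d).filter (fun b => g ^ 2 ∣ b))) := by
    intro b hb
    rw [mem_filter] at hb
    obtain ⟨hb, g, hg, hc, hd⟩ := hb
    rw [mem_biUnion]
    refine ⟨g.natDegree, ?_, ?_⟩
    · rw [mem_Icc]
      refine ⟨by omega, ?_⟩
      rw [mem_Bs] at hb
      have := natDegree_le_of_dvd hd hb.1.1.ne_zero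
      rw [natDegree_pow] at this
      omega
    · rw [mem_biUnion]
      exact ⟨g, mem_Mn.2 ⟨hg, rfl⟩, mem_filter.2 ⟨hb, hd⟩⟩
  have h1 : (((Bs p c d).filter (fun b => ∃ g : k[X], g.Monic ∧ c0 < g.natDegree ∧
      g ^ 2 ∣ b)).card : ℝ) ≤ ∑ j ∈ Finset.Icc (c0 + 1) (d / 2), ∑ g ∈ Mn k j,
        (((Bs p c d).filter (fun b => g ^ 2 ∣ b)).card : ℝ) := by
    have := (card_le_card hsub).trans (card_biUnion_le.trans (sum_le_sum fun j _ => card_biUnion_le))
    exact_mod_cast this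
  refine h1.trans ?_
  have h2 : ∀ j ∈ Finset.Icc (c0 + 1) (d / 2), ∑ g ∈ Mn k j,
        (((Bs p c d).filter (fun b => g ^ 2 ∣ b)).card : ℝ) ≤
          (Fintype.card k : ℝ) ^ (d - p.natDegree) * (1 / 2) ^ j + (Fintype.card k : ℝ) ^ j := by
    intro j _
    have h3 : ∀ g ∈ Mn k j, (((Bs p c d).filter (fun b => g ^ 2 ∣ b)).card : ℝ) ≤
        (Fintype.card k : ℝ) ^ (d - p.natDegree) * (wt k j * wt k j) + 1 := by
      intro g hg
      rw [mem_Mn] at hg
      have e : wt k (g ^ 2).natDegree = wt k j * wt k j := by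
        rw [natDegree_pow, hg.2, two_mul, wt_add]
      have hw := wt_nonneg (k := k) j
      rcases le_or_gt ((g ^ 2).natDegree + p.natDegree) d with h | h
      · have := card_up hp hi hpc (hg.1.pow 2) h
        rw [e] at this
        linarith
      · have := card_up_one hp hi hpc (hg.1.pow 2) h
        have h0 : 0 ≤ (Fintype.card k : ℝ) ^ (d - p.natDegree) * (wt k j * wt k j) := by positivity
        linarith
    refine (sum_le_sum h3).trans ?_
    rw [sum_const, card_Mn, nsmul_eq_mul]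
    have h4 : (Fintype.card k : ℝ) ^ j * wt k j = 1 := by
      unfold wt
      exact mul_inv_cancel₀ (by positivity)
    calc (((Fintype.card k ^ j : ℕ)) : ℝ) * ((Fintype.card k : ℝ) ^ (d - p.natDegree) *
          (wt k j * wt k j) + 1) =
        (Fintype.card k : ℝ) ^ (d - p.natDegree) * wt k j * ((Fintype.card k : ℝ) ^ j * wt k j) +
          (Fintype.card k : ℝ) ^ j := by
          push_cast; ring
      _ = (Fintype.card k : ℝ) ^ (d - p.natDegree) * wt k j + (Fintype.card k : ℝ) ^ j := by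
          rw [h4, mul_one]
      _ ≤ _ := by
        have := wt_le_half (k := k) j
        gcongr
  refine (sum_le_sum h2).trans ?_
  rw [sum_add_distrib, ← mul_sum]
  have h5 := geo_half_le c0 (d / 2)
  have h6 : ∑ j ∈ Finset.Icc (c0 + 1) (d / 2), (Fintype.card k : ℝ) ^ j ≤
      2 * (Fintype.card k : ℝ) ^ (d / 2) := by
    refine le_trans (sum_le_sum_of_subset_of_nonneg ?_ fun _ _ _ => by positivity)
      (geo_sum_le (Fintype.card k : ℝ) hq (d / 2))
    intro j hj
    rw [mem_Icc] at hj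
    rw [mem_range]
    omega
  gcongr

/-! ### prime divisors of small degree -/

theorem sum_SdP {p c : k[X]} {d y : ℕ} (hp : p.Monic) (hi : Irreducible p) (hpc : ¬ p ∣ c)
    (hy : y + p.natDegree ≤ d) :
    ∑ b ∈ Bs p c d, (Sd y b : ℝ) ≤ (Fintype.card k : ℝ) ^ (d - p.natDegree) * y := by
  have hq := q_ge (k := k)
  have h1 : ∀ b ∈ Bs p c d, (Sd y b : ℝ) = ∑ P ∈ PU k y, if P ∣ b then (P.natDegree : ℝ) else 0 := by
    intro b _
    unfold Sd
    rw [Nat.cast_sum, sum_filter]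
  rw [sum_congr rfl h1, sum_comm]
  have h2 : ∀ P ∈ PU k y, (∑ b ∈ Bs p c d, if P ∣ b then (P.natDegree : ℝ) else 0) ≤
      (Fintype.card k : ℝ) ^ (d - p.natDegree) * ((P.natDegree : ℝ) * wt k P.natDegree) := by
    intro P hP
    rw [← sum_filter, sum_const, nsmul_eq_mul]
    have hP' := mem_PU.1 hP
    have := card_up (d := d) (c := c) hp hi hpc hP'.1 (by omega)
    have h0 : (0 : ℝ) ≤ P.natDegree := Nat.cast_nonneg _
    calc (((Bs p c d).filter (fun f => P ∣ f)).card : ℝ) * P.natDegree ≤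
        ((Fintype.card k : ℝ) ^ (d - p.natDegree) * wt k P.natDegree) * P.natDegree := by gcongr
      _ = _ := by ring
  refine (sum_le_sum h2).trans ?_
  rw [← mul_sum]
  have := sum_deg_le (k := k) y
  gcongr

theorem markovP {p c : k[X]} {d y : ℕ} (hp : p.Monic) (hi : Irreducible p) (hpc : ¬ p ∣ c)
    (hy : y + p.natDegree ≤ d) {t : ℝ} (ht : 0 < t) :
    (((Bs p c d).filter (fun b => t < (Sd y b : ℝ))).card : ℝ) ≤
      (Fintype.card k : ℝ) ^ (d - p.natDegree) * (y / t) := by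
  have h1 : (((Bs p c d).filter (fun b => t < (Sd y b : ℝ))).card : ℝ) * t ≤
      (Fintype.card k : ℝ) ^ (d - p.natDegree) * y := by
    calc (((Bs p c d).filter (fun b => t < (Sd y b : ℝ))).card : ℝ) * t
        = ∑ b ∈ (Bs p c d).filter (fun b => t < (Sd y b : ℝ)), t := by
          rw [sum_const, nsmul_eq_mul]
      _ ≤ ∑ b ∈ (Bs p c d).filter (fun b => t < (Sd y b : ℝ)), (Sd y b : ℝ) :=
          sum_le_sum fun b hb => (mem_filter.1 hb).2.le
      _ ≤ ∑ b ∈ Bs p c d, (Sd y b : ℝ) :=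
          sum_le_sum_of_subset_of_nonneg (filter_subset _ _) fun b _ _ => Nat.cast_nonneg _
      _ ≤ _ := sum_SdP hp hi hpc hy
  rw [mul_div_assoc']
  rwa [le_div_iff₀ ht]

/-! ### prime divisors of medium degree -/

variable (k) in
/-- the primes with degree in `(a, D]` -/
noncomputable def QQ (a D : ℕ) : Finset k[X] := (Finset.Ioc a D).biUnion fun j => Irn k j

theorem mem_QQ {a D : ℕ} {P : k[X]} :
    P ∈ QQ k a D ↔ P.Monic ∧ Irreducible P ∧ a < P.natDegree ∧ P.natDegree ≤ D := by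
  unfold QQ
  rw [mem_biUnion]
  constructor
  · rintro ⟨j, hj, hP⟩
    rw [mem_Irn] at hP
    rw [mem_Ioc] at hj
    exact ⟨hP.1, hP.2.2, by omega, by omega⟩
  · rintro ⟨h1, h2, h3, h4⟩
    exact ⟨P.natDegree, mem_Ioc.2 ⟨h3, h4⟩, mem_Irn.2 ⟨h1, rfl, h2⟩⟩

theorem sum_QQ (a D : ℕ) (f : k[X] → ℝ) :
    ∑ P ∈ QQ k a D, f P = ∑ j ∈ Finset.Ioc a D, ∑ P ∈ Irn k j, f P := by
  unfold QQ
  rw [sum_biUnion]
  intro a _ b _ hab
  rw [Function.onFun, Finset.disjoint_left]
  intro P hP hP'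
  exact hab ((mem_Irn.1 hP).2.1.symm.trans (mem_Irn.1 hP').2.1)

variable (k) in
/-- the mass of `QQ` -/
noncomputable def Lq (a D : ℕ) : ℝ := ∑ P ∈ QQ k a D, wt k P.natDegree

/-- the number of the prime divisors in `QQ` -/
noncomputable def Xq (a D : ℕ) (b : k[X]) : ℕ := ((QQ k a D).filter (fun P => P ∣ b)).card

theorem Xq_eq (a D : ℕ) (b : k[X]) :
    (Xq a D b : ℝ) = ∑ P ∈ QQ k a D, if P ∣ b then (1 : ℝ) else 0 := by
  unfold Xq
  rw [← sum_filter, sum_const, nsmul_eq_mul, mul_one]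

theorem cop_QQ {p P : k[X]} {a D : ℕ} (hp : p.Monic) (hi : Irreducible p) (hpa : p.natDegree ≤ a)
    (hP : P ∈ QQ k a D) : IsCoprime P p := by
  rw [mem_QQ] at hP
  refine coprime_of_ne hP.1 hP.2.1 hp hi ?_
  rintro rfl
  omega

theorem sum_Xq {p c : k[X]} {d a D : ℕ} (hp : p.Monic) (hi : Irreducible p)
    (hpa : p.natDegree ≤ a) (h : D + p.natDegree ≤ d) :
    ∑ b ∈ Bs p c d, (Xq a D b : ℝ) = (Fintype.card k : ℝ) ^ (d - p.natDegree) * Lq k a D := by
  have hq := q_ge (k := k)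
  rw [sum_congr rfl fun b _ => Xq_eq a D b, sum_comm, Lq, mul_sum]
  refine sum_congr rfl fun P hP => ?_
  have hc := cop_QQ hp hi hpa hP
  rw [mem_QQ] at hP
  rw [← sum_filter, sum_const, nsmul_eq_mul, mul_one, card_cop hp hP.1 hc (by omega), wt,
    Nat.cast_pow, pow_sub₀ _ (by positivity) (by omega)]

theorem sum_Xq_sq {p c : k[X]} {d a D : ℕ} (hp : p.Monic) (hi : Irreducible p)
    (hpc : ¬ p ∣ c) (h : 2 * D + p.natDegree ≤ d) :
    ∑ b ∈ Bs p c d, (Xq a D b : ℝ) ^ 2 ≤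
      (Fintype.card k : ℝ) ^ (d - p.natDegree) * (Lq k a D ^ 2 + Lq k a D) := by
  have hq := q_ge (k := k)
  have h1 : ∀ b ∈ Bs p c d, (Xq a D b : ℝ) ^ 2 = ∑ P ∈ QQ k a D, ∑ Q ∈ QQ k a D,
      if P ∣ b ∧ Q ∣ b then (1 : ℝ) else 0 := by
    intro b _
    rw [Xq_eq, sq, sum_mul_sum]
    refine sum_congr rfl fun P _ => sum_congr rfl fun Q _ => ?_
    by_cases hP : P ∣ b <;> by_cases hQ : Q ∣ b <;> simp [hP, hQ]
  rw [sum_congr rfl h1, sum_comm]
  have h2 : ∀ P ∈ QQ k a D, (∑ b ∈ Bs p c d, ∑ Q ∈ QQ k a D, if P ∣ b ∧ Q ∣ b then (1 : ℝ) else 0) ≤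
      (Fintype.card k : ℝ) ^ (d - p.natDegree) * (wt k P.natDegree * Lq k a D +
        wt k P.natDegree) := by
    intro P hP
    have hP' := mem_QQ.1 hP
    rw [sum_comm]
    have h3 : ∀ Q ∈ QQ k a D, (∑ b ∈ Bs p c d, if P ∣ b ∧ Q ∣ b then (1 : ℝ) else 0) ≤
        (Fintype.card k : ℝ) ^ (d - p.natDegree) * (wt k P.natDegree * wt k Q.natDegree +
          if Q = P then wt k P.natDegree else 0) := by
      intro Q hQ
      have hQ' := mem_QQ.1 hQ
      rw [← sum_filter, sum_const, nsmul_eq_mul, mul_one]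
      split_ifs with hQP
      · subst hQP
        have e : (Bs p c d).filter (fun b => Q ∣ b ∧ Q ∣ b) = (Bs p c d).filter (fun b => Q ∣ b) := by
          refine filter_congr fun b _ => ?_
          tauto
        rw [e]
        refine (card_up hp hi hpc hQ'.1 (by omega)).trans ?_
        have h0 := wt_nonneg (k := k) Q.natDegree
        have : 0 ≤ wt k Q.natDegree * wt k Q.natDegree := by positivity
        gcongr
        linarith
      · have e : (Bs p c d).filter (fun b => P ∣ b ∧ Q ∣ b) =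
            (Bs p c d).filter (fun b => P * Q ∣ b) := by
          refine filter_congr fun b _ => ?_
          constructor
          · rintro ⟨a, c⟩
            exact (coprime_of_ne hP'.1 hP'.2.1 hQ'.1 hQ'.2.1 (Ne.symm hQP)).mul_dvd a c
          · intro a
            exact ⟨(dvd_mul_right _ _).trans a, (dvd_mul_left _ _).trans a⟩
        rw [e]
        refine (card_up hp hi hpc (hP'.1.mul hQ'.1) ?_).trans ?_
        · rw [hP'.1.natDegree_mul hQ'.1]
          omega
        · rw [hP'.1.natDegree_mul hQ'.1, wt_add, add_zero]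
    refine (sum_le_sum h3).trans ?_
    rw [← mul_sum, sum_add_distrib, ← mul_sum, sum_ite_eq', if_pos hP]
    rfl
  refine (sum_le_sum h2).trans ?_
  rw [← mul_sum, sum_add_distrib, ← sum_mul]
  have : (∑ P ∈ QQ k a D, wt k P.natDegree) = Lq k a D := rfl
  rw [this, sq]

theorem turanP {p c : k[X]} {d a D : ℕ} (hp : p.Monic) (hi : Irreducible p)
    (hpa : p.natDegree ≤ a) (hpc : ¬ p ∣ c) (h : 2 * D + p.natDegree ≤ d) (hL : 0 < Lq k a D) :
    (((Bs p c d).filter (fun b => Xq a D b = 0)).card : ℝ) ≤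
      (Fintype.card k : ℝ) ^ (d - p.natDegree) * (1 / Lq k a D) := by
  have hq := q_ge (k := k)
  have hcard : ((Bs p c d).card : ℝ) = (Fintype.card k : ℝ) ^ (d - p.natDegree) := by
    unfold Bs
    rw [card_class hp (by omega) c, Nat.cast_pow]
  have h1 : ∑ b ∈ Bs p c d, ((Xq a D b : ℝ) - Lq k a D) ^ 2 ≤
      (Fintype.card k : ℝ) ^ (d - p.natDegree) * Lq k a D := by
    have e : ∀ b ∈ Bs p c d, ((Xq a D b : ℝ) - Lq k a D) ^ 2 =
        (Xq a D b : ℝ) ^ 2 - 2 * Lq k a D * Xq a D b + Lq k a D ^ 2 := fun b _ => by ring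
    rw [sum_congr rfl e, sum_add_distrib, sum_sub_distrib, ← mul_sum,
      sum_Xq hp hi hpa (by omega), sum_const, nsmul_eq_mul, hcard]
    have := sum_Xq_sq (c := c) (a := a) hp hi hpc h
    nlinarith
  have h2 : ∑ b ∈ (Bs p c d).filter (fun b => Xq a D b = 0), (Lq k a D) ^ 2 ≤
      ∑ b ∈ Bs p c d, ((Xq a D b : ℝ) - Lq k a D) ^ 2 := by
    refine (sum_le_sum (fun b hb => ?_)).trans
      (sum_le_sum_of_subset_of_nonneg (filter_subset _ _) fun _ _ _ => sq_nonneg _)
    rw [mem_filter] at hb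
    rw [hb.2]
    apply le_of_eq
    push_cast
    ring
  rw [sum_const, nsmul_eq_mul] at h2
  have h3 := h2.trans h1
  have h4 : (((Bs p c d).filter (fun b => Xq a D b = 0)).card : ℝ) * Lq k a D ≤
      (Fintype.card k : ℝ) ^ (d - p.natDegree) := by
    have h5 : ((((Bs p c d).filter (fun b => Xq a D b = 0)).card : ℝ) * Lq k a D) * Lq k a D ≤
      ((Fintype.card k : ℝ) ^ (d - p.natDegree)) * Lq k a D := by nlinarith
    exact le_of_mul_le_mul_right h5 hL
  rw [mul_one_div]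
  rwa [le_div_iff₀ hL]

/-! ### the mass of the primes of medium degree -/

theorem dyadic (a : ℕ) (ha : 1 ≤ a) (L : ℕ) :
    (L : ℝ) / 4 ≤ ∑ j ∈ Finset.Ioc a (a * 2 ^ L), 1 / (2 * (j : ℝ)) := by
  induction L with
  | zero => simp
  | succ L ih =>
    have hle1 : a ≤ a * 2 ^ L := Nat.le_mul_of_pos_right a (by positivity)
    have hle2 : a * 2 ^ L ≤ a * 2 ^ (L + 1) :=
      Nat.mul_le_mul_left a (Nat.pow_le_pow_right (by norm_num) (by omega))
    rw [← Finset.sum_Ioc_consecutive _ hle1 hle2]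
    have h1 : (1 : ℝ) / 4 ≤ ∑ j ∈ Finset.Ioc (a * 2 ^ L) (a * 2 ^ (L + 1)), 1 / (2 * (j : ℝ)) := by
      have h2 : ∀ j ∈ Finset.Ioc (a * 2 ^ L) (a * 2 ^ (L + 1)),
          1 / (2 * ((a : ℝ) * 2 ^ (L + 1))) ≤ 1 / (2 * (j : ℝ)) := by
        intro j hj
        rw [mem_Ioc] at hj
        have hj0 : (0 : ℝ) < j := by exact_mod_cast (show 0 < j by omega)
        have hj1 : (j : ℝ) ≤ (a : ℝ) * 2 ^ (L + 1) := by exact_mod_cast hj.2
        gcongr
      refine le_trans ?_ (sum_le_sum h2)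
      rw [sum_const, nsmul_eq_mul, Nat.card_Ioc]
      have h3 : a * 2 ^ (L + 1) - a * 2 ^ L = a * 2 ^ L := by
        rw [pow_succ]
        have : a * (2 ^ L * 2) = a * 2 ^ L + a * 2 ^ L := by ring
        omega
      rw [h3]
      have ha' : (0 : ℝ) < a := by exact_mod_cast ha
      push_cast
      rw [pow_succ]
      apply le_of_eq
      field_simp
      ring
    push_cast
    linarith

theorem Lq_ge {a D L : ℕ} (ha : 4 ≤ a) (hD : a * 2 ^ L ≤ D) : (L : ℝ) / 4 ≤ Lq k a D := by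
  unfold Lq
  rw [sum_QQ]
  refine (dyadic a (by omega) L).trans ?_
  refine le_trans ?_ (sum_le_sum_of_subset_of_nonneg (Finset.Ioc_subset_Ioc_right hD)
    fun j _ _ => sum_nonneg fun _ _ => wt_nonneg _)
  refine sum_le_sum fun j hj => ?_
  rw [mem_Ioc] at hj
  exact irn_wt_ge (by omega)

/-! ### the structure of the remaining polynomials -/

theorem good_of {b : k[X]} {d y c0 a D : ℕ} {δ κ κ' : ℝ} (hb : b.Monic)
    (hsq : ∀ g : k[X], g.Monic → g ^ 2 ∣ b → g.natDegree ≤ c0)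
    (hS : 3 * (c0 : ℝ) + (Sd y b : ℝ) ≤ κ' * d) (hX : Xq a D b ≠ 0) (hκ : κ' ≤ κ)
    (hκδ : κ' * d < (a : ℝ) + 1) (ha : δ * d ≤ (a : ℝ) + 1) (hD : (D : ℝ) ≤ (1 / 2 - δ) * d) :
    GoodV {P : k[X] | P.natDegree ≤ y} δ κ d b := by
  set s : k[X] := ∏ P ∈ (PU k y).filter (fun P => P ∣ b), P with hs
  have hsm : s.Monic := monic_prod_of_monic _ _ fun P hP => (mem_PU.1 (mem_filter.1 hP).1).1
  have hsd : s.natDegree = Sd y b := by
    rw [hs, natDegree_prod_of_monic _ _ fun P hP => (mem_PU.1 (mem_filter.1 hP).1).1]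
    rfl
  obtain ⟨e, h, hbe, he, hh, hcop, hsqf, hsc, hed⟩ := decomp hb hsm.ne_zero c0 hsq
  have hed' : (e.natDegree : ℝ) ≤ κ' * d := by
    have h1 : (e.natDegree : ℝ) ≤ 3 * (c0 : ℝ) + (s.natDegree : ℝ) := by exact_mod_cast hed
    rw [hsd] at h1
    linarith
  unfold Xq at hX
  obtain ⟨P, hP⟩ := Finset.card_pos.1 (Nat.pos_of_ne_zero hX)
  rw [mem_filter, mem_QQ] at hP
  obtain ⟨⟨hP1, hP2, hP3, hP4⟩, hPb⟩ := hP
  have hPe : ¬ P ∣ e := by
    intro hPe
    have h1 := natDegree_le_of_dvd hPe he.ne_zero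
    have h2 : (a : ℝ) + 1 ≤ P.natDegree := by exact_mod_cast hP3
    have h3 : (P.natDegree : ℝ) ≤ e.natDegree := by exact_mod_cast h1
    linarith
  have hPh : P ∣ h := by
    rcases hP2.prime.dvd_or_dvd (hbe ▸ hPb) with h1 | h1
    · exact absurd h1 hPe
    · exact h1
  obtain ⟨h2, hh2⟩ := hPh
  have hh2m : h2.Monic := hP1.of_mul_monic_left (hh2 ▸ hh)
  refine ⟨e, P, h2, ?_, he, hP1, hh2m, ?_, ?_, ?_, ?_, ?_, ?_⟩
  · rw [hbe, hh2]
  · rw [← hh2]; exact hcop
  · rw [← hh2]; exact hsqf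
  · intro R hR hRm hRi hRh
    rw [← hh2] at hRh
    have hRb : R ∣ b := by
      rw [hbe]
      exact hRh.mul_left e
    have hRs : R ∣ s := dvd_prod_of_mem _ (mem_filter.2 ⟨mem_PU.2 ⟨hRm, hRi, hR⟩, hRb⟩)
    exact hRi.not_isUnit (hsc.isUnit_of_dvd' hRs hRh)
  · have hd0 : (0 : ℝ) ≤ d := Nat.cast_nonneg d
    exact hed'.trans (mul_le_mul_of_nonneg_right hκ hd0)
  · have h2 : (a : ℝ) + 1 ≤ P.natDegree := by exact_mod_cast hP3
    linarith
  · have h3 : (P.natDegree : ℝ) ≤ D := by exact_mod_cast hP4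
    linarith

end base

/-- **Task TYP.**  Typical polynomials in a residue class modulo a prime of rather large degree. -/
theorem typP : S_typP := by
  intro K _ _ ε hε
  have hq := q_ge (k := K)
  obtain ⟨L, hL⟩ := exists_nat_ge (12 / ε)
  set δ : ℝ := 1 / 2 ^ (L + 1 + 2) with hδ
  have hδ0 : 0 < δ := by positivity
  have hδ8 : δ ≤ 1 / 8 := by
    rw [hδ, pow_add, pow_add]
    have h1 : (1 : ℝ) ≤ 2 ^ L := one_le_pow₀ (by norm_num)
    apply one_div_le_one_div_of_le (by norm_num)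
    nlinarith
  refine ⟨δ, hδ0, hδ8, fun κ hκ => ?_⟩
  set κ' : ℝ := min κ δ with hκ'
  have hκ'0 : 0 < κ' := lt_min hκ hδ0
  have hκ'1 : κ' ≤ κ := min_le_left _ _
  have hκ'2 : κ' ≤ δ := min_le_right _ _
  set θ : ℝ := min (ε * κ' / 6) (1 / 2) with hθ
  have hθ0 : 0 < θ := lt_min (by positivity) (by norm_num)
  have hθ1 : θ ≤ ε * κ' / 6 := min_le_left _ _
  have hθ2 : θ ≤ 1 / 2 := min_le_right _ _
  obtain ⟨c0, hc0⟩ : ∃ c0 : ℕ, (1 / 2 : ℝ) ^ c0 ≤ ε / 6 :=
    (exists_pow_lt_of_lt_one (by positivity) (by norm_num)).imp (fun _ h => h.le)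
  obtain ⟨m, hm⟩ : ∃ m : ℕ, (1 / 2 : ℝ) ^ m ≤ ε / 12 :=
    (exists_pow_lt_of_lt_one (by positivity) (by norm_num)).imp (fun _ h => h.le)
  refine ⟨θ, hθ0, 0, max (8 * m + 1) (max ⌈6 * (c0 : ℝ) / κ'⌉₊ ⌈4 / δ⌉₊), ?_⟩
  intro d y hd _ hy p c hp hi hpd hpc
  have hd1 : 8 * m + 1 ≤ d := (le_max_left _ _).trans hd
  have hd2 : 6 * (c0 : ℝ) ≤ κ' * d := by
    have h1 : 6 * (c0 : ℝ) / κ' ≤ d := (Nat.le_ceil _).trans
      (by exact_mod_cast ((le_max_left _ _).trans (le_max_right _ _)).trans hd)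
    rw [div_le_iff₀ hκ'0] at h1
    linarith
  have hd3 : 4 ≤ δ * d := by
    have h1 : 4 / δ ≤ d := (Nat.le_ceil _).trans
      (by exact_mod_cast ((le_max_right _ _).trans (le_max_right _ _)).trans hd)
    rw [div_le_iff₀ hδ0] at h1
    linarith
  have hd0 : (0 : ℝ) < d := by exact_mod_cast (show 0 < d by omega)
  set j := p.natDegree with hj
  have hj8 : 8 * j ≤ d := by
    have h1 : (j : ℝ) ≤ 1 / 8 * d := hpd.trans (mul_le_mul_of_nonneg_right hδ8 hd0.le)
    have h2 : 8 * (j : ℝ) ≤ d := by linarith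
    exact_mod_cast h2
  have hyd : 2 * y ≤ d := by
    have h1 : (y : ℝ) ≤ 1 / 2 * d := hy.trans (mul_le_mul_of_nonneg_right hθ2 hd0.le)
    have h2 : 2 * (y : ℝ) ≤ d := by linarith
    exact_mod_cast h2
  set a := ⌊δ * d⌋₊ with ha
  have ha4 : 4 ≤ a := Nat.le_floor (by exact_mod_cast hd3)
  have had : (a : ℝ) ≤ δ * d := Nat.floor_le (by positivity)
  have had' : δ * d < (a : ℝ) + 1 := Nat.lt_floor_add_one _
  have hja : j ≤ a := Nat.le_floor hpd
  have haD : a * 2 ^ (L + 1) ≤ d / 4 := by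
    rw [Nat.le_div_iff_mul_le (by norm_num)]
    have h1 : (a : ℝ) * 2 ^ (L + 1 + 2) ≤ d := by
      rw [hδ, one_div, inv_mul_eq_div, le_div_iff₀ (by positivity)] at had
      exact had
    have h2 : a * 2 ^ (L + 1 + 2) ≤ d := by exact_mod_cast h1
    calc a * 2 ^ (L + 1) * 4 = a * 2 ^ (L + 1 + 2) := by rw [pow_add 2 (L + 1) 2]; ring
      _ ≤ d := h2
  have hLq := Lq_ge (k := K) (L := L + 1) ha4 haD
  have hLq3 : 3 / ε ≤ Lq K a (d / 4) := by
    refine le_trans ?_ hLq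
    push_cast
    have : 12 / ε = 4 * (3 / ε) := by ring
    linarith
  have hLq0 : 0 < Lq K a (d / 4) := lt_of_lt_of_le (by positivity) hLq3
  set N : ℝ := (Fintype.card K : ℝ) ^ (d - j) with hN
  have hN0 : 0 < N := by positivity
  set B1 := (Bs p c d).filter (fun b => ∃ g : K[X], g.Monic ∧ c0 < g.natDegree ∧ g ^ 2 ∣ b) with hB1
  set B2 := (Bs p c d).filter (fun b => κ' * d / 2 < (Sd y b : ℝ)) with hB2
  set B3 := (Bs p c d).filter (fun b => Xq a (d / 4) b = 0) with hB3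
  have hsub : (Mn K d).filter (fun b => p ∣ b - c ∧ ¬ GoodV {P : K[X] | P.natDegree ≤ y} δ κ d b) ⊆
      B1 ∪ B2 ∪ B3 := by
    intro b hb
    rw [mem_filter, mem_Mn] at hb
    obtain ⟨⟨hbm, hbd⟩, hbp, hbG⟩ := hb
    have hbB : b ∈ Bs p c d := mem_Bs.2 ⟨⟨hbm, hbd⟩, hbp⟩
    by_contra hnot
    apply hbG
    simp only [mem_union, hB1, hB2, hB3, mem_filter, hbB, true_and, not_or, not_exists, not_and,
      not_lt] at hnot
    obtain ⟨⟨h1, h2⟩, h3⟩ := hnot
    refine good_of (c0 := c0) (a := a) (D := d / 4) (κ' := κ') hbm ?_ ?_ h3 hκ'1 ?_ had'.le ?_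
    · intro g hg hgb
      by_contra hlt
      exact h1 g hg (by omega) hgb
    · linarith
    · exact lt_of_le_of_lt (mul_le_mul_of_nonneg_right hκ'2 hd0.le) had'
    · have h4 : ((d / 4 : ℕ) : ℝ) ≤ (d : ℝ) / 4 := Nat.cast_div_le
      have h5 : δ * d ≤ 1 / 8 * d := mul_le_mul_of_nonneg_right hδ8 hd0.le
      nlinarith
  have hcard : (((Mn K d).filter (fun b => p ∣ b - c ∧
      ¬ GoodV {P : K[X] | P.natDegree ≤ y} δ κ d b)).card : ℝ) ≤
      (B1.card : ℝ) + B2.card + B3.card := by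
    have h1 := (card_le_card hsub).trans (card_union_le (B1 ∪ B2) B3)
    have h3 := (card_union_le B1 B2)
    exact_mod_cast h1.trans (Nat.add_le_add_right h3 _)
  refine hcard.trans ?_
  have b1 : (B1.card : ℝ) ≤ N * (ε / 3) := by
    refine (sq_boundP hp hi hpc).trans ?_
    have h1 : N * (1 / 2) ^ c0 ≤ N * (ε / 6) := mul_le_mul_of_nonneg_left hc0 hN0.le
    have h2 : 2 * (Fintype.card K : ℝ) ^ (d / 2) ≤ N * (ε / 6) := by
      have h3 : (1 : ℝ) ≤ (Fintype.card K : ℝ) ^ m * (1 / 2) ^ m := by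
        rw [← mul_pow]
        apply one_le_pow₀
        linarith
      have h4 : (Fintype.card K : ℝ) ^ (d / 2) * (Fintype.card K : ℝ) ^ m ≤ N := by
        rw [← pow_add]
        apply pow_le_pow_right₀ (by linarith)
        omega
      calc 2 * (Fintype.card K : ℝ) ^ (d / 2) = 2 * (Fintype.card K : ℝ) ^ (d / 2) * 1 := by ring
        _ ≤ 2 * (Fintype.card K : ℝ) ^ (d / 2) * ((Fintype.card K : ℝ) ^ m * (1 / 2) ^ m) :=
            mul_le_mul_of_nonneg_left h3 (by positivity)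
        _ = 2 * ((Fintype.card K : ℝ) ^ (d / 2) * (Fintype.card K : ℝ) ^ m) * (1 / 2) ^ m := by ring
        _ ≤ 2 * N * (ε / 12) := by gcongr
        _ = N * (ε / 6) := by ring
    linarith
  have b2 : (B2.card : ℝ) ≤ N * (ε / 3) := by
    have ht : 0 < κ' * d / 2 := by positivity
    refine (markovP hp hi hpc (by omega) ht).trans ?_
    apply mul_le_mul_of_nonneg_left _ hN0.le
    rw [div_le_iff₀ ht]
    have h1 : (y : ℝ) ≤ ε * κ' / 6 * d := hy.trans (mul_le_mul_of_nonneg_right hθ1 hd0.le)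
    linarith
  have b3 : (B3.card : ℝ) ≤ N * (ε / 3) := by
    refine (turanP hp hi hja hpc (by omega) hLq0).trans ?_
    apply mul_le_mul_of_nonneg_left _ hN0.le
    rw [div_le_iff₀ hLq0]
    have h1 : ε / 3 * (3 / ε) ≤ ε / 3 * Lq K a (d / 4) :=
      mul_le_mul_of_nonneg_left hLq3 (by positivity)
    have h2 : ε / 3 * (3 / ε) = 1 := by field_simp
    linarith
  linarith

end Pool.Agent.H571.E2
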